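import Pool.Agent.helper675_ocg.Asymp

/-!
The biased oriented-cycle game on `K_n`: OMaker wins, under the monotone and under the strict
rules, for every bias `b ≤ (2 - √2 - δ) n` once `n` is large.
-/

namespace Pool.Agent.Results.MP_64dd91_co.MakerLower

open Finset

/-- A position of the game: the set of arcs `(x, y)` (edge `xy` directed from `x` to `y`)
that have been fixed so far. -/
abbrev Position (n : ℕ) := Finset (Fin n × Fin n)

/-- The edge `xy` of `K_n` is still undirected. -/
def Free {n : ℕ} (A : Position n) (x y : Fin n) : Prop :=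
  x ≠ y ∧ (x, y) ∉ A ∧ (y, x) ∉ A

/-- Every edge has been directed. -/
def Complete {n : ℕ} (A : Position n) : Prop :=
  ∀ x y, ¬ Free A x y

/-- No loops, and no edge directed both ways. -/
def IsOrientation {n : ℕ} (A : Position n) : Prop :=
  ∀ x y, (x, y) ∈ A → x ≠ y ∧ (y, x) ∉ A

/-- There is a closed directed walk of positive length (a directed cycle). -/
def HasCycle {n : ℕ} (A : Position n) : Prop :=
  ∃ x, Relation.TransGen (fun u v => (u, v) ∈ A) x x

open Classical in
/-- The number of undirected edges left. -/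
noncomputable def freeCount {n : ℕ} (A : Position n) : ℕ :=
  (univ.filter fun p : Fin n × Fin n => p.1 < p.2 ∧ Free A p.1 p.2).card

/-- Monotone rules: OBreaker directs between `1` and `b` further edges. -/
def MonotoneMove {n : ℕ} (b : ℕ) (A B : Position n) : Prop :=
  A ⊆ B ∧ IsOrientation B ∧ 1 ≤ (B \ A).card ∧ (B \ A).card ≤ b

/-- Strict rules: OBreaker directs exactly `b` further edges, or all if fewer are left. -/
def StrictMove {n : ℕ} (b : ℕ) (A B : Position n) : Prop :=
  A ⊆ B ∧ IsOrientation B ∧ (B \ A).card = min b (freeCount A)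

/-- `B` may result from `A` by OBreaker's reply under rule `R`; if nothing is left to direct,
then the play has stopped and the position stays as it is. -/
def Reply {n : ℕ} (R : Position n → Position n → Prop) (A B : Position n) : Prop :=
  (Complete A ∧ B = A) ∨ (¬ Complete A ∧ R A B)

/-- OMaker, who is to move at the given position, can force a directed cycle in the final
tournament, OBreaker moving by rule `R`. -/
inductive MakerWins {n : ℕ} (R : Position n → Position n → Prop) : Position n → Prop
  | over (A : Position n) : Complete A → HasCycle A → MakerWins R A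
  | move (A : Position n) (x y : Fin n) : Free A x y →
      (∀ B, Reply R (insert (x, y) A) B → MakerWins R B) → MakerWins R A

lemma HasCycle.mono {n : ℕ} {A B : Position n} (hAB : A ⊆ B) (h : HasCycle A) : HasCycle B := by
  obtain ⟨x, hx⟩ := h
  exact ⟨x, Relation.TransGen.mono (fun u v huv => hAB huv) _ _ hx⟩

lemma Reply.subset {n : ℕ} {R : Position n → Position n → Prop}
    (hR : ∀ A B, R A B → A ⊆ B) {A B : Position n} (h : Reply R A B) : A ⊆ B := by
  rcases h with ⟨_, rfl⟩ | ⟨_, h⟩
  · exact Finset.Subset.refl _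
  · exact hR A B h

/-- Once a directed cycle is present, OMaker wins. -/
lemma wins_of_cycle {n : ℕ} {R : Position n → Position n → Prop}
    (hR : ∀ A B, R A B → A ⊆ B) :
    ∀ (m : ℕ) (A : Position n), (univ \ A).card = m → HasCycle A → MakerWins R A := by
  intro m
  induction m using Nat.strong_induction_on with
  | _ m ih =>
  intro A hm hc
  by_cases hA : Complete A
  · exact MakerWins.over A hA hc
  · simp only [Complete, not_forall, not_not] at hA
    obtain ⟨x, y, hxy⟩ := hA
    refine MakerWins.move A x y hxy fun B hB => ?_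
    have hsub : insert (x, y) A ⊆ B := hB.subset hR
    have hAB : A ⊆ B := (Finset.subset_insert _ _).trans hsub
    refine ih (univ \ B).card ?_ B rfl (hc.mono hAB)
    rw [← hm]
    apply Finset.card_lt_card
    rw [Finset.ssubset_iff_of_subset (Finset.sdiff_subset_sdiff (Finset.Subset.refl _) hAB)]
    refine ⟨(x, y), ?_, ?_⟩
    · simp [hxy.2.1]
    · simp [hsub (Finset.mem_insert_self _ _)]

/-- At OMaker's turn an orientation that is not transitive is a win for OMaker. -/
lemma wins_of_not_trans {n : ℕ} {R : Position n → Position n → Prop}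
    (hR : ∀ A B, R A B → A ⊆ B) {A : Position n} (hA : IsOrientation A) {x y z : Fin n}
    (h1 : (x, y) ∈ A) (h2 : (y, z) ∈ A) (h3 : (x, z) ∉ A) : MakerWins R A := by
  by_cases h4 : (z, x) ∈ A
  · refine wins_of_cycle hR _ A rfl ⟨x, ?_⟩
    exact ((Relation.TransGen.single h1).tail h2).tail h4
  · have hxz : z ≠ x := by
      rintro rfl
      exact (hA _ _ h1).2 h2
    refine MakerWins.move A z x ⟨hxz, h4, h3⟩ fun B hB => ?_
    have hsub : insert (z, x) A ⊆ B := hB.subset hR
    refine wins_of_cycle hR _ B rfl ⟨x, ?_⟩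
    have e1 : (x, y) ∈ B := hsub (Finset.mem_insert_of_mem h1)
    have e2 : (y, z) ∈ B := hsub (Finset.mem_insert_of_mem h2)
    have e3 : (z, x) ∈ B := hsub (Finset.mem_insert_self _ _)
    exact ((Relation.TransGen.single e1).tail e2).tail e3

/-- The positions from which OMaker cannot win form a safe family. -/
lemma safe_of_rule {n b : ℕ} {R : Position n → Position n → Prop}
    (hR : ∀ A B, R A B → A ⊆ B ∧ IsOrientation B ∧ (B \ A).card ≤ b) :
    helper675_ocg.Safe (b + 1) {P : Position n | (∀ x, (x, x) ∉ P) ∧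
      (∀ x y z, (x, y) ∈ P → (y, z) ∈ P → (x, z) ∈ P) ∧ ¬ MakerWins R P} where
  irrefl := fun P hP => hP.1
  trans := fun P hP => hP.2.1
  step := by
    rintro P ⟨hirr, htr, hnw⟩ x y hxy h1 h2
    have hR' : ∀ A B, R A B → A ⊆ B := fun A B h => (hR A B h).1
    have hor : IsOrientation (insert (x, y) P) := by
      intro u v huv
      rw [Finset.mem_insert] at huv
      rcases huv with huv | huv
      · obtain ⟨rfl, rfl⟩ := Prod.mk.inj huv
        refine ⟨hxy, ?_⟩
        rw [Finset.mem_insert, not_or]
        refine ⟨?_, h2⟩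
        intro h
        exact hxy (Prod.mk.inj h).2
      · refine ⟨?_, ?_⟩
        · rintro rfl
          exact hirr _ huv
        · rw [Finset.mem_insert, not_or]
          refine ⟨?_, fun h => hirr _ (htr _ _ _ huv h)⟩
          intro h
          obtain ⟨rfl, rfl⟩ := Prod.mk.inj h
          exact h2 huv
    have hex : ∃ B, Reply R (insert (x, y) P) B ∧ ¬ MakerWins R B := by
      by_contra hcon
      push Not at hcon
      exact hnw (MakerWins.move P x y ⟨hxy, h1, h2⟩ hcon)
    obtain ⟨B, hB, hBw⟩ := hex
    have hsub : insert (x, y) P ⊆ B := hB.subset hR'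
    have hBor : IsOrientation B := by
      rcases hB with ⟨_, rfl⟩ | ⟨_, h⟩
      · exact hor
      · exact (hR _ _ h).2.1
    have hcard : (B \ insert (x, y) P).card ≤ b := by
      rcases hB with ⟨_, rfl⟩ | ⟨_, h⟩
      · simp
      · exact (hR _ _ h).2.2
    refine ⟨B, ⟨?_, ?_, hBw⟩, ?_, ?_, ?_⟩
    · intro u hu
      exact (hBor u u hu).1 rfl
    · intro u v w huv hvw
      by_contra hcon
      exact hBw (wins_of_not_trans hR' hBor huv hvw hcon)
    · exact (Finset.subset_insert _ _).trans hsub
    · exact hsub (Finset.mem_insert_self _ _)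
    · have e1 := Finset.card_sdiff_add_card_eq_card hsub
      have e2 := Finset.card_insert_le (x, y) P
      omega

/-- For every `δ > 0` there is `N` such that for all `n ≥ N` and every bias
`1 ≤ b ≤ (2 - √2 - δ) n`, OMaker wins the `b`-biased oriented-cycle game on `K_n`, both under
the monotone rules and under the strict rules. -/
theorem result : ∀ δ : ℝ, 0 < δ → ∃ N : ℕ, ∀ n : ℕ, N ≤ n → ∀ b : ℕ, 1 ≤ b →
    (b : ℝ) ≤ (2 - √2 - δ) * n →
      MakerWins (MonotoneMove b) (∅ : Position n) ∧ MakerWins (StrictMove b) (∅ : Position n) := by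
  intro δ hδ
  obtain ⟨N, hN⟩ := helper675_ocg.core_asymp (δ := δ / 2) (by linarith)
  refine ⟨max N ⌈2 / δ⌉₊, fun n hn b _ hb => ?_⟩
  have hn1 : N ≤ n := (le_max_left _ _).trans hn
  have hn2 : 2 / δ ≤ n := (Nat.le_ceil _).trans (by exact_mod_cast (le_max_right _ _).trans hn)
  have hb' : ((b + 1 : ℕ) : ℝ) ≤ (2 - √2 - δ / 2) * n := by
    push_cast
    rw [div_le_iff₀ hδ] at hn2
    linarith
  have key : ∀ R : Position n → Position n → Prop,
      (∀ A B, R A B → A ⊆ B ∧ IsOrientation B ∧ (B \ A).card ≤ b) → MakerWins R ∅ := by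
    intro R hR
    by_contra hcon
    refine hN n hn1 (b + 1) hb' (Fin n) (Fintype.card_fin n) _ (safe_of_rule hR) ?_
    exact ⟨by simp, by simp, hcon⟩
  refine ⟨key _ fun A B h => ⟨h.1, h.2.1, h.2.2.2⟩, key _ fun A B h => ⟨h.1, h.2.1, ?_⟩⟩
  rw [h.2.2]
  exact min_le_left _ _

end Pool.Agent.Results.MP_64dd91_co.MakerLower
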